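import Mathlib
import Pool.Agent.H28.Chord

open Finset

namespace Pool.Agent.Results.MP_24e13c_co.Chordal

variable {V : Type} [Fintype V]

open Classical in
/-- closed neighbourhood -/
noncomputable def N (G : SimpleGraph V) (v : V) : Finset V := univ.filter fun u => u = v ∨ G.Adj v u

/-- no induced cycle `f 0, …, f n` of length `n + 1 ≥ 4` -/
def IsChordal (G : SimpleGraph V) : Prop :=
  ¬ ∃ (n : ℕ) (f : ℕ → V), 3 ≤ n ∧ Set.InjOn f (Set.Iic n) ∧
    (∀ i < n, G.Adj (f i) (f (i + 1))) ∧ G.Adj (f n) (f 0) ∧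
    ∀ i j, i + 1 < j → j ≤ n → ¬ (i = 0 ∧ j = n) → ¬ G.Adj (f i) (f j)

def RealDom (G : SimpleGraph V) (f : V → ℝ) : Prop := ∀ v, 1 ≤ ∑ u ∈ N G v, f u

noncomputable def gammaR (G : SimpleGraph V) : EReal :=
  ⨅ f : {f : V → ℝ // RealDom G f}, ((∑ u, f.1 u : ℝ) : EReal)

def IsNERD (G : SimpleGraph V) (f : V → ℝ) : Prop :=
  (∀ v, 0 ≤ f v) ∧ ∀ v, ∑ u ∈ N G v, f u = 1

noncomputable def gamma (G : SimpleGraph V) : ℕ :=
  sInf {k | ∃ D : Finset V, D.card = k ∧ ∀ v, ∃ d ∈ D, d ∈ N G v}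

theorem mem_N {G : SimpleGraph V} {u v : V} : u ∈ N G v ↔ u = v ∨ G.Adj v u := by
  simp [N]

theorem N_symm {G : SimpleGraph V} {u v : V} : u ∈ N G v ↔ v ∈ N G u := by
  rw [mem_N, mem_N, eq_comm, G.adj_comm]

theorem swap (G : SimpleGraph V) (f g : V → ℝ) :
    ∑ v, f v * ∑ u ∈ N G v, g u = ∑ u, g u * ∑ v ∈ N G u, f v := by
  classical
  have e : ∀ (f g : V → ℝ), ∑ v, f v * ∑ u ∈ N G v, g u =
      ∑ v, ∑ u, if u ∈ N G v then f v * g u else 0 := by
    intro f g
    refine sum_congr rfl fun v _ => ?_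
    rw [mul_sum, ← sum_filter]
    simp
  rw [e, e, sum_comm]
  refine sum_congr rfl fun u _ => sum_congr rfl fun v _ => ?_
  simp only [N_symm (u := u), mul_comm]

theorem weak {G : SimpleGraph V} {f g : V → ℝ} (hf : IsNERD G f) (hg : RealDom G g) :
    ∑ u, f u ≤ ∑ u, g u := by
  calc ∑ u, f u = ∑ v, f v * 1 := by simp
    _ ≤ ∑ v, f v * ∑ u ∈ N G v, g u :=
        sum_le_sum fun v _ => mul_le_mul_of_nonneg_left (hg v) (hf.1 v)
    _ = ∑ u, g u := by rw [swap]; simp [hf.2]

theorem peo {G : SimpleGraph V} (hG : Pool.Agent.H28.Chord.Chordal G) (S : Finset V) :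
    ∃ r : V → ℕ, Set.InjOn r S ∧ ∀ u ∈ S, ∀ a ∈ S, ∀ b ∈ S, G.Adj u a → G.Adj u b → a ≠ b →
      r u < r a → r u < r b → G.Adj a b := by
  classical
  induction S using Finset.strongInduction with
  | H S ih =>
  rcases S.eq_empty_or_nonempty with rfl | hS
  · exact ⟨fun _ => 0, by simp, by simp⟩
  obtain ⟨v, hv, hs⟩ := Pool.Agent.H28.Chord.dirac hG hS
  obtain ⟨r, h1, h2⟩ := ih (S.erase v) (erase_ssubset hv)
  refine ⟨fun x => if x = v then 0 else r x + 1, ?_, ?_⟩
  · intro x hx y hy hxy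
    by_cases a : x = v <;> by_cases b : y = v
    · rw [a, b]
    · simp [a, b] at hxy
    · simp [a, b] at hxy
    · simp only [a, b, if_false, add_left_inj] at hxy
      exact h1 (by simpa [a] using hx) (by simpa [b] using hy) hxy
  · intro u hu a ha b hb hua hub hab h3 h4
    by_cases e : u = v
    · subst e; exact hs a ha b hb hua hub hab
    · by_cases ea : a = v
      · simp [ea] at h3
      by_cases eb : b = v
      · simp [eb] at h4
      simp only [e, ea, eb, if_false, add_lt_add_iff_right] at h3 h4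
      exact h2 u (by simp [e, hu]) a (by simp [ea, ha]) b (by simp [eb, hb]) hua hub hab h3 h4

theorem tight {G : SimpleGraph V} {f : V → ℝ} (hf : IsNERD G f) {v a : V}
    (h : ∀ x ∈ N G v, 0 < f x → x ∈ N G a) : ∀ x ∈ N G a, 0 < f x → x ∈ N G v := by
  classical
  intro x hx hpos
  by_contra hn
  have h1 : ∑ u ∈ N G v, f u ≤ ∑ u ∈ (N G a).erase x, f u := by
    rw [← sum_filter_of_ne (p := fun u => 0 < f u) (s := N G v)
      (fun u _ hu => lt_of_le_of_ne (hf.1 u) (Ne.symm hu))]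
    refine sum_le_sum_of_subset_of_nonneg ?_ (fun u _ _ => hf.1 u)
    intro u hu
    rw [mem_filter] at hu
    exact mem_erase.2 ⟨fun e => hn (e ▸ hu.1), h u hu.1 hu.2⟩
  have h2 := add_sum_erase (N G a) f hx
  rw [hf.2] at h1 h2
  linarith

theorem dom {G : SimpleGraph V} (hG : Pool.Agent.H28.Chord.Chordal G) {f : V → ℝ}
    (hf : IsNERD G f) : ∃ D : Finset V, (D.card : ℝ) ≤ ∑ u, f u ∧ ∀ v, ∃ d ∈ D, d ∈ N G v := by
  classical
  obtain ⟨r, hr, hpeo⟩ := peo hG univ
  have hinj : Function.Injective r := fun x y h => hr (by simp) (by simp) h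
  have peo' : ∀ u a b, G.Adj u a → G.Adj u b → r u < r a → r u < r b → a ∈ N G b := by
    intro u a b h1 h2 h3 h4
    by_cases e : a = b
    · exact mem_N.2 (Or.inl e)
    · exact mem_N.2 (Or.inr (hpeo u (by simp) a (by simp) b (by simp) h1 h2 e h3 h4).symm)
  -- the support is a disjoint union of cliques
  have step1 : ∀ b a c, 0 < f b → 0 < f a → 0 < f c → a ∈ N G b → c ∈ N G b → a ∈ N G c := by
    intro b a c hb ha hc hab hcb
    let R : V → V → Prop := fun x y => 0 < f y ∧ y ∈ N G x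
    let T := univ.filter fun x => Relation.ReflTransGen R b x
    obtain ⟨u, hu, hmin⟩ := exists_min_image T r ⟨b, by simp [T, Relation.ReflTransGen.refl]⟩
    have hu' : Relation.ReflTransGen R b u := (mem_filter.1 hu).2
    have hQ : ∀ x y, x ∈ N G u → 0 < f x → y ∈ N G u → 0 < f y → x ∈ N G y := by
      intro x y hx hfx hy hfy
      rcases mem_N.1 hx with rfl | hx'
      · exact N_symm.1 hy
      rcases mem_N.1 hy with rfl | hy'
      · exact hx
      have l : ∀ z, G.Adj u z → 0 < f z → r u < r z := fun z hz hfz =>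
        lt_of_le_of_ne (hmin z (mem_filter.2 ⟨by simp, hu'.tail ⟨hfz, mem_N.2 (Or.inr hz)⟩⟩))
          (fun e => hz.ne (hinj e))
      exact peo' u x y hx' hy' (l x hx' hfx) (l y hy' hfy)
    have hclosed : ∀ y, y ∈ N G u → 0 < f y → ∀ x ∈ N G y, 0 < f x → x ∈ N G u :=
      fun y hy hfy => tight hf (fun x hx hfx => hQ x y hx hfx hy hfy)
    have hb' : ∀ x, Relation.ReflTransGen R x u → 0 < f x → x ∈ N G u := by
      intro x hx
      induction hx using Relation.ReflTransGen.head_induction_on with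
      | refl => exact fun _ => mem_N.2 (Or.inl rfl)
      | head h _ ih => exact fun hx => hclosed _ (ih h.1) h.1 _ (N_symm.1 h.2) hx
    have hbu := hb' b hu' hb
    exact hQ a c (hclosed b hbu hb a hab ha) ha (hclosed b hbu hb c hcb hc) hc
  let D := univ.filter fun d => 0 < f d ∧ ∀ x ∈ N G d, 0 < f x → r x ≤ r d
  have top : ∀ a, 0 < f a → ∃ d ∈ D, d ∈ N G a ∧ r a ≤ r d ∧ 0 < f d := by
    intro a ha
    obtain ⟨d, hd, hmax⟩ := exists_max_image ((N G a).filter fun x => 0 < f x) r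
      ⟨a, mem_filter.2 ⟨mem_N.2 (Or.inl rfl), ha⟩⟩
    rw [mem_filter] at hd
    refine ⟨d, mem_filter.2 ⟨by simp, hd.2, fun x hx hfx => hmax x (mem_filter.2 ⟨?_, hfx⟩)⟩, hd.1,
      hmax a (mem_filter.2 ⟨mem_N.2 (Or.inl rfl), ha⟩), hd.2⟩
    exact step1 d x a hd.2 hfx ha hx (N_symm.1 hd.1)
  refine ⟨D, ?_, fun v => ?_⟩
  · have h1 : (D.card : ℝ) = ∑ d ∈ D, ∑ u ∈ (N G d).filter (fun x => 0 < f x), f u := by
      rw [card_eq_sum_ones, Nat.cast_sum]
      refine sum_congr rfl fun d _ => ?_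
      rw [sum_filter_of_ne (fun u _ hu => lt_of_le_of_ne (hf.1 u) (Ne.symm hu)), hf.2]
      simp
    rw [h1, ← sum_biUnion]
    · exact sum_le_sum_of_subset_of_nonneg (subset_univ _) (fun u _ _ => hf.1 u)
    · intro d hd d' hd' hne
      rw [Function.onFun, disjoint_left]
      intro x hx hx'
      rw [mem_filter] at hx hx'
      have k := (mem_filter.1 hd).2
      have k' := (mem_filter.1 hd').2
      have hdd := step1 x d d' hx.2 k.1 k'.1 (N_symm.1 hx.1) (N_symm.1 hx'.1)
      exact hne (hinj (le_antisymm (k'.2 d hdd k.1) (k.2 d' (N_symm.1 hdd) k'.1)))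
  · by_cases hv : 0 < f v
    · obtain ⟨d, hd, h, -⟩ := top v hv
      exact ⟨d, hd, h⟩
    have hadj : ∀ x ∈ N G v, 0 < f x → G.Adj v x := fun x hx hfx =>
      (mem_N.1 hx).resolve_left (fun e => hv (e ▸ hfx))
    by_cases hc : ∃ a ∈ N G v, 0 < f a ∧ r a < r v
    · obtain ⟨a, ha, hfa, hra⟩ := hc
      obtain ⟨d, hd, h1, h2, -⟩ := top a hfa
      refine ⟨d, hd, ?_⟩
      rcases mem_N.1 h1 with rfl | h1
      · exact ha
      · exact peo' a d v h1 (hadj a ha hfa).symm
          (lt_of_le_of_ne h2 (fun e => h1.ne (hinj e))) hra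
    · push Not at hc
      obtain ⟨a, ha, hfa⟩ : ∃ a ∈ N G v, 0 < f a := by
        by_contra hn
        push Not at hn
        have := sum_nonpos hn
        rw [hf.2] at this
        linarith
      obtain ⟨d, hd, h1, -, h3⟩ := top a hfa
      have l : ∀ x ∈ N G v, 0 < f x → r v < r x := fun x hx hfx =>
        lt_of_le_of_ne (hc x hx hfx) (fun e => (hadj x hx hfx).ne (hinj e))
      exact ⟨d, hd, tight hf (fun x hx hfx => peo' v x a (hadj x hx hfx) (hadj a ha hfa)
        (l x hx hfx) (l a ha hfa)) d h1 h3⟩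

theorem gamma_spec (G : SimpleGraph V) :
    ∃ D : Finset V, D.card = gamma G ∧ ∀ v, ∃ d ∈ D, d ∈ N G v :=
  Nat.sInf_mem (s := {k | ∃ D : Finset V, D.card = k ∧ ∀ v, ∃ d ∈ D, d ∈ N G v})
    ⟨_, univ, rfl, fun v => ⟨v, mem_univ _, mem_N.2 (Or.inl rfl)⟩⟩

theorem farkas (G : SimpleGraph V) [Nonempty V] (h : ¬ ∃ f, IsNERD G f) :
    ∃ g, RealDom G g ∧ ∑ u, g u ≤ 0 := by
  classical
  let A : (V → ℝ) →ₗ[ℝ] (V → ℝ) :=
    { toFun := fun y v => ∑ u ∈ N G v, y u
      map_add' := fun y z => by funext v; simp [sum_add_distrib]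
      map_smul' := fun c y => by funext v; simp [mul_sum] }
  have hA : ∀ y v, A y v = ∑ u ∈ N G v, y u := fun _ _ => rfl
  let K := A '' stdSimplex ℝ V
  let Rr : Set (V → ℝ) := (Submodule.span ℝ {(fun _ => 1 : V → ℝ)} : Submodule ℝ (V → ℝ))
  have hK : IsCompact K := (isCompact_stdSimplex ℝ V).image A.continuous_of_finiteDimensional
  have hdisj : Disjoint K Rr := by
    rw [Set.disjoint_left]
    rintro _ ⟨y, hy, rfl⟩ hz
    obtain ⟨t, ht⟩ := Submodule.mem_span_singleton.1 hz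
    have ht' : ∀ v, ∑ u ∈ N G v, y u = t := fun v => by
      have := congrFun ht v
      simp only [Pi.smul_apply, smul_eq_mul, mul_one] at this
      rw [← hA, this]
    obtain ⟨v, hv⟩ : ∃ v, 0 < y v := by
      by_contra hn
      push Not at hn
      have := sum_nonpos (s := univ) fun v _ => hn v
      rw [hy.2] at this
      linarith
    have htpos : 0 < t := by
      rw [← ht' v]
      exact lt_of_lt_of_le hv (single_le_sum (fun u _ => hy.1 u) (mem_N.2 (Or.inl rfl)))
    refine h ⟨fun u => y u / t, fun u => div_nonneg (hy.1 u) htpos.le, fun v => ?_⟩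
    rw [← sum_div, ht', div_self htpos.ne']
  obtain ⟨φ, a, b, h1, hab, h2⟩ := geometric_hahn_banach_compact_closed
    ((convex_stdSimplex ℝ V).linear_image A) hK (Submodule.convex _)
    (Submodule.closed_of_finiteDimensional _) hdisj
  have hb : b < 0 := by simpa using h2 0 (Submodule.zero_mem _)
  have h0 : φ (fun _ => 1) = 0 := by
    by_contra hne
    have := h2 ((b / φ (fun _ => 1)) • fun _ => (1 : ℝ))
      (Submodule.smul_mem _ _ (Submodule.mem_span_singleton_self _))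
    rw [map_smul, smul_eq_mul, div_mul_cancel₀ _ hne] at this
    exact lt_irrefl _ this
  have hφ : ∀ z : V → ℝ, φ z = ∑ u, z u * φ (Pi.single u 1) := by
    intro z
    conv_lhs => rw [pi_eq_sum_univ' z]
    simp [map_sum]
  have ha : a < 0 := hab.trans hb
  refine ⟨fun u => φ (Pi.single u 1) / a, fun v => ?_, ?_⟩
  · have := h1 _ ⟨Pi.single v 1, single_mem_stdSimplex ℝ v, rfl⟩
    rw [hφ] at this
    have e : ∑ u, A (Pi.single v 1) u * φ (Pi.single u 1) = ∑ u ∈ N G v, φ (Pi.single u 1) := by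
      have := swap G (fun u => φ (Pi.single u 1)) (Pi.single v 1)
      simp only [hA]
      rw [show (∑ u, (∑ w ∈ N G u, (Pi.single v 1 : V → ℝ) w) * φ (Pi.single u 1)) =
        ∑ u, φ (Pi.single u 1) * ∑ w ∈ N G u, (Pi.single v 1 : V → ℝ) w from
          sum_congr rfl fun _ _ => mul_comm _ _, this]
      simp [Pi.single_apply]
    rw [e] at this
    rw [← sum_div, le_div_iff_of_neg ha]
    linarith
  · rw [← sum_div]
    have := hφ (fun _ => 1)
    simp only [one_mul] at this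
    rw [← this, h0]
    simp

theorem result : ∀ (V : Type) [Fintype V] (G : SimpleGraph V), IsChordal G →
    (gammaR G = (gamma G : EReal) ↔ ∃ f, IsNERD G f) := by
  classical
  intro V _ G hG
  have hG' : Pool.Agent.H28.Chord.Chordal G := by
    intro n f h1 h2 h3 h4
    by_contra hc
    refine hG ⟨n, f, h1, h2, h3, h4, fun i j a b c d => hc ⟨i, j, a, b, c, d⟩⟩
  constructor
  · intro h
    by_contra hn
    rcases isEmpty_or_nonempty V with hV | hV
    · exact hn ⟨fun _ => 0, fun v => le_rfl, fun v => hV.elim v⟩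
    obtain ⟨g, hg, hg0⟩ := farkas G hn
    have h1 : gammaR G ≤ ((∑ u, g u : ℝ) : EReal) := iInf_le_of_le ⟨g, hg⟩ le_rfl
    obtain ⟨D, hD, hdom⟩ := gamma_spec G
    obtain ⟨v⟩ := hV
    obtain ⟨d, hd, -⟩ := hdom v
    have h2 : 0 < gamma G := hD ▸ card_pos.2 ⟨d, hd⟩
    rw [h, ← EReal.coe_coe_eq_natCast, EReal.coe_le_coe_iff] at h1
    have : (0 : ℝ) < gamma G := by exact_mod_cast h2
    linarith
  · rintro ⟨f, hf⟩
    apply le_antisymm
    · obtain ⟨D, hD, hdom⟩ := gamma_spec G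
      refine iInf_le_of_le ⟨fun u => if u ∈ D then 1 else 0, fun v => ?_⟩ ?_
      · obtain ⟨d, hd, hdv⟩ := hdom v
        have := single_le_sum (f := fun u => if u ∈ D then (1 : ℝ) else 0)
          (fun u _ => by split_ifs <;> norm_num) hdv
        simpa [hd] using this
      · rw [← EReal.coe_coe_eq_natCast, EReal.coe_le_coe_iff, ← hD]
        simp
    · refine le_iInf fun g => ?_
      obtain ⟨D, hD, hdom⟩ := dom hG' hf
      have h1 : gamma G ≤ D.card := Nat.sInf_le ⟨D, rfl, hdom⟩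
      rw [← EReal.coe_coe_eq_natCast, EReal.coe_le_coe_iff]
      have h2 : (gamma G : ℝ) ≤ D.card := by exact_mod_cast h1
      exact h2.trans (hD.trans (weak hf g.2))

end Pool.Agent.Results.MP_24e13c_co.Chordal
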